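import Pool.Agent.Run7.h900.BR.Asm
import Pool.Agent.Run7.h531.BR.SUB
import Pool.Agent.Run7.h824.BR.DATA
import Pool.Agent.Run7.h888.BR.GEN
import Pool.Agent.Run7.h896.BR.PAD
import Pool.Agent.Run7.h896.BR.THETA
import Pool.Agent.Run7.h989.BR.MAT
import Pool.Agent.Run7.h56.BR.LIFT
import Pool.Agent.Run7.h781.BR.VA
import Pool.Agent.Run7.h760.BR.SPLIT

/-!
# Bohr rigid virtually abelian groups are profinitely rigid

The question is whether every Bohr rigid group (finitely generated and residually finite, and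
determined among such groups by its Bohr compactification) is profinitely rigid.  The answer is yes
for all virtually abelian groups.  More exactly: if `Λ` and `Γ` are finitely generated and residually
finite, `Λ` has an abelian subgroup of finite index, and the profinite completions of `Λ` and `Γ`
are isomorphic, then their Bohr compactifications are isomorphic.

Idea of the proof.  The Bohr compactification of `ℤ` is a product `P × S`, where `P` is the
profinite completion of `ℤ` and `S` is the dual of the discrete group `ℝ / ℚ`, which is uniquely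
divisible.  Let `ℤⁿ` be a normal subgroup of finite index of `Λ`, with quotient `F`.  For a compact
abelian group `C` with a dense cyclic subgroup generated by `c` let `E(C, c)` be the extension of
`F` by `Cⁿ` obtained from `Λ` by `ℤⁿ → Cⁿ`.  Then `E(P, p)` is the profinite completion of `Λ`
and `E(P × S, (p, s))` is its Bohr compactification.  Since `S` is uniquely divisible, the
component in `Sⁿ` of the cocycle is a coboundary, so the Bohr compactification is determined by
`E(P, p) → F` and by the group `Sⁿ` with the action of `F`.  If `Γ` has the same profinite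
completion, then the intersection of `Γ` with the closure of `ℤⁿ` is a normal subgroup `ℤⁿ` of
`Γ` with the same quotient `F`, and the two integral representations of `F` are equivalent over
`ℤ₂`, so they are equivalent over `ℚ`, and the groups `Sⁿ` are isomorphic with the action of `F`.

Authors of the pieces: helper760 (SPLIT), helper888, helper440 (GEN, UNIV), helper824 (DATA), helper989
(MAT), helper896 (PAD, THETA), helper56 (LIFT), helper531 (SUB), helper781 (VA), helper900.
-/

set_option autoImplicit false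

namespace Pool.Agent.Results.MP_f81df4_al.VirtuallyAbelianGroups

open Pool.Agent.Run7.h900.BR (S_SPLIT S_GEN S_UNIV S_DATA S_MAT S_PAD S_THETA S_LIFT S_SUB core
  model_bohr model_prof uniq_bohr)

/-- Every element except `1` is outside of a subgroup of finite index. -/
def ResiduallyFinite (Γ : Type) [Group Γ] : Prop :=
  ∀ g : Γ, g ≠ 1 → ∃ H : Subgroup Γ, H.index ≠ 0 ∧ g ∉ H

/-- There is a commutative subgroup of finite index. -/
def VirtuallyAbelian (Γ : Type) [Group Γ] : Prop :=
  ∃ B : Subgroup Γ, B.index ≠ 0 ∧ ∀ x ∈ B, ∀ y ∈ B, x * y = y * x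

/-- `(K, i)` is the Bohr compactification of `Γ`: every homomorphism of `Γ` to a compact Hausdorff
group factors uniquely through `i` and a continuous homomorphism. -/
def IsBohrCompactification (Γ : Type) [Group Γ] (K : Type) [TopologicalSpace K] [Group K]
    (i : Γ →* K) : Prop :=
  ∀ (M : Type) [TopologicalSpace M] [Group M] [IsTopologicalGroup M] [CompactSpace M] [T2Space M]
    (f : Γ →* M), ∃! h : K →* M, Continuous h ∧ h.comp i = f

/-- `(K, i)` is the profinite completion of `Γ`: every homomorphism of `Γ` to a profinite group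
factors uniquely through `i` and a continuous homomorphism. -/
def IsProfiniteCompletion (Γ : Type) [Group Γ] (K : Type) [TopologicalSpace K] [Group K]
    (i : Γ →* K) : Prop :=
  ∀ (M : Type) [TopologicalSpace M] [Group M] [IsTopologicalGroup M] [CompactSpace M] [T2Space M]
    [TotallyDisconnectedSpace M] (f : Γ →* M), ∃! h : K →* M, Continuous h ∧ h.comp i = f

/-- Isomorphic Bohr compactifications imply isomorphic groups. -/
def BohrRigid (Λ : Type) [Group Λ] : Prop :=
  ∀ (Γ : Type) [Group Γ], Group.FG Γ → ResiduallyFinite Γ →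
    ∀ (K : Type) [TopologicalSpace K] [Group K] [IsTopologicalGroup K] [CompactSpace K] [T2Space K]
      (L : Type) [TopologicalSpace L] [Group L] [IsTopologicalGroup L] [CompactSpace L] [T2Space L]
      (i : Λ →* K) (j : Γ →* L), IsBohrCompactification Λ K i → IsBohrCompactification Γ L j →
      Nonempty (K ≃ₜ* L) → Nonempty (Γ ≃* Λ)

/-- Isomorphic profinite completions imply isomorphic groups. -/
def ProfinitelyRigid (Λ : Type) [Group Λ] : Prop :=
  ∀ (Γ : Type) [Group Γ], Group.FG Γ → ResiduallyFinite Γ →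
    ∀ (K : Type) [TopologicalSpace K] [Group K] [IsTopologicalGroup K] [CompactSpace K] [T2Space K]
      [TotallyDisconnectedSpace K]
      (L : Type) [TopologicalSpace L] [Group L] [IsTopologicalGroup L] [CompactSpace L] [T2Space L]
      [TotallyDisconnectedSpace L]
      (i : Λ →* K) (j : Γ →* L), IsProfiniteCompletion Λ K i → IsProfiniteCompletion Γ L j →
      Nonempty (K ≃ₜ* L) → Nonempty (Γ ≃* Λ)

/-- the main step, with the existence of the Bohr compactifications -/
theorem key (Λ Γ : Type) [Group Λ] [Group Γ] (h1 : Group.FG Λ) (h2 : ResiduallyFinite Λ)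
    (h3 : VirtuallyAbelian Λ) (h4 : Group.FG Γ) (h5 : ResiduallyFinite Γ)
    (K₀ : Type) [TopologicalSpace K₀] [Group K₀] [IsTopologicalGroup K₀] [CompactSpace K₀]
    [T2Space K₀] [TotallyDisconnectedSpace K₀]
    (L₀ : Type) [TopologicalSpace L₀] [Group L₀] [IsTopologicalGroup L₀] [CompactSpace L₀]
    [T2Space L₀] [TotallyDisconnectedSpace L₀] (i₀ : Λ →* K₀) (j₀ : Γ →* L₀)
    (hi₀ : IsProfiniteCompletion Λ K₀ i₀) (hj₀ : IsProfiniteCompletion Γ L₀ j₀)
    (hT : Nonempty (K₀ ≃ₜ* L₀)) :
    ∃ (K : Type) (_ : TopologicalSpace K) (_ : Group K) (_ : IsTopologicalGroup K)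
      (_ : CompactSpace K) (_ : T2Space K) (L : Type) (_ : TopologicalSpace L) (_ : Group L)
      (_ : IsTopologicalGroup L) (_ : CompactSpace L) (_ : T2Space L) (i : Λ →* K) (j : Γ →* L),
      IsBohrCompactification Λ K i ∧ IsBohrCompactification Γ L j ∧ Nonempty (K ≃ₜ* L) := by
  obtain ⟨T⟩ := hT
  obtain ⟨B, hB1, hB2⟩ := h3
  obtain ⟨A, n, hA1, hA2, ⟨e⟩⟩ := Pool.Agent.Run7.h781.BR.t_VA Λ h1 h2 B hB1 hB2
  obtain ⟨P, S, _, _, _, _, _, _, _, _, _, _, _, p, s, hs1, hs2, hs3, hs4⟩ := Run7.h760.BR.t_SPLIT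
  exact core Pool.Agent.Run7.h888.BR.t_GEN Pool.Agent.Run7.h888.BR.t_UNIV Run7.h824.BR.t_DATA
    Pool.Agent.Run7.h989.BR.t_MAT Pool.Agent.Run7.h896.BR.t_PAD Pool.Agent.Run7.h896.BR.t_THETA
    Pool.Agent.Run7.h56.BR.t_LIFT Pool.Agent.Run7.h531.BR.t_SUB hs1 hs2 hs3 hs4 Λ A hA2 n e Γ h4 h5
    K₀ L₀ i₀ j₀ hi₀ hj₀ T

/-- **Bohr rigid virtually abelian groups are profinitely rigid.** -/
theorem result :
    -- (1) existence of the Bohr compactification and of the profinite completion
    (∀ (Λ : Type) [Group Λ], Group.FG Λ → ResiduallyFinite Λ → VirtuallyAbelian Λ →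
      (∃ (K : Type) (_ : TopologicalSpace K) (_ : Group K) (_ : IsTopologicalGroup K)
        (_ : CompactSpace K) (_ : T2Space K) (i : Λ →* K), IsBohrCompactification Λ K i) ∧
      ∃ (K : Type) (_ : TopologicalSpace K) (_ : Group K) (_ : IsTopologicalGroup K)
        (_ : CompactSpace K) (_ : T2Space K) (_ : TotallyDisconnectedSpace K) (i : Λ →* K),
        IsProfiniteCompletion Λ K i) ∧
    -- (2) isomorphic profinite completions imply isomorphic Bohr compactifications
    (∀ (Λ Γ : Type) [Group Λ] [Group Γ], Group.FG Λ → ResiduallyFinite Λ → VirtuallyAbelian Λ →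
      Group.FG Γ → ResiduallyFinite Γ →
      ∀ (K₀ : Type) [TopologicalSpace K₀] [Group K₀] [IsTopologicalGroup K₀] [CompactSpace K₀]
        [T2Space K₀] [TotallyDisconnectedSpace K₀]
        (L₀ : Type) [TopologicalSpace L₀] [Group L₀] [IsTopologicalGroup L₀] [CompactSpace L₀]
        [T2Space L₀] [TotallyDisconnectedSpace L₀] (i₀ : Λ →* K₀) (j₀ : Γ →* L₀),
        IsProfiniteCompletion Λ K₀ i₀ → IsProfiniteCompletion Γ L₀ j₀ → Nonempty (K₀ ≃ₜ* L₀) →
      ∀ (K : Type) [TopologicalSpace K] [Group K] [IsTopologicalGroup K] [CompactSpace K]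
        [T2Space K]
        (L : Type) [TopologicalSpace L] [Group L] [IsTopologicalGroup L] [CompactSpace L]
        [T2Space L] (i : Λ →* K) (j : Γ →* L),
        IsBohrCompactification Λ K i → IsBohrCompactification Γ L j → Nonempty (K ≃ₜ* L)) ∧
    -- (3) Bohr rigid implies profinitely rigid
    (∀ (Λ : Type) [Group Λ], Group.FG Λ → ResiduallyFinite Λ → VirtuallyAbelian Λ →
      BohrRigid Λ → ProfinitelyRigid Λ) := by
  refine ⟨fun Λ _ h1 h2 h3 => ?_, ?_, ?_⟩
  · obtain ⟨B, hB1, hB2⟩ := h3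
    obtain ⟨A, n, hA1, hA2, ⟨e⟩⟩ := Pool.Agent.Run7.h781.BR.t_VA Λ h1 h2 B hB1 hB2
    obtain ⟨P, S, _, _, _, _, _, _, _, _, _, _, _, p, s, hs1, hs2, hs3, hs4⟩ :=
      Run7.h760.BR.t_SPLIT
    obtain ⟨D, θ, -⟩ := Run7.h824.BR.t_DATA Λ A n e
    haveI : A.FiniteIndex := ⟨hA2⟩
    letI : TopologicalSpace (Λ ⧸ A) := ⊥
    haveI : DiscreteTopology (Λ ⧸ A) := ⟨rfl⟩
    exact ⟨⟨_, inferInstance, inferInstance, inferInstance, inferInstance, inferInstance, _,
      model_bohr Pool.Agent.Run7.h888.BR.t_GEN Pool.Agent.Run7.h888.BR.t_UNIV D hs3 θ⟩,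
      ⟨_, inferInstance, inferInstance, inferInstance, inferInstance, inferInstance,
      inferInstance, _,
      model_prof Pool.Agent.Run7.h888.BR.t_GEN Pool.Agent.Run7.h888.BR.t_UNIV D hs4 θ⟩⟩
  · intro Λ Γ _ _ h1 h2 h3 h4 h5 K₀ _ _ _ _ _ _ L₀ _ _ _ _ _ _ i₀ j₀ hi₀ hj₀ hT K _ _ _ _ _
      L _ _ _ _ _ i j hi hj
    obtain ⟨K', _, _, _, _, _, L', _, _, _, _, _, i', j', hi', hj', ⟨u⟩⟩ :=
      key Λ Γ h1 h2 h3 h4 h5 K₀ L₀ i₀ j₀ hi₀ hj₀ hT
    obtain ⟨a, -⟩ := uniq_bohr hi hi'
    obtain ⟨b, -⟩ := uniq_bohr hj' hj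
    exact ⟨(a.trans u).trans b⟩
  · intro Λ _ h1 h2 h3 hB Γ _ h4 h5 K₀ _ _ _ _ _ _ L₀ _ _ _ _ _ _ i₀ j₀ hi₀ hj₀ hT
    obtain ⟨K', _, _, _, _, _, L', _, _, _, _, _, i', j', hi', hj', hu⟩ :=
      key Λ Γ h1 h2 h3 h4 h5 K₀ L₀ i₀ j₀ hi₀ hj₀ hT
    exact hB Γ h4 h5 K' L' i' j' hi' hj' hu

end Pool.Agent.Results.MP_f81df4_al.VirtuallyAbelianGroups
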